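import Pool.Agent.H44.DU.Targets

/-!
# Board du, module X4: the directions in which one word is bad
-/

set_option autoImplicit false

namespace Pool.Agent.H47.DU

open MeasureTheory Pool.Agent.H44.DU

variable {n : ℕ} (S : Surf n)

theorem cont_g (t : ℝ) (W : List (Side n)) : Continuous (S.g t W) := by
  unfold Surf.g
  fun_prop

theorem cont_pt (t : ℝ) (s : Side n) : Continuous fun x => (S.pt t s x).im := by
  unfold Surf.pt Surf.lam
  refine Complex.continuous_im.comp ?_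
  refine continuous_const.add (Continuous.mul (Complex.continuous_ofReal.comp ?_)
    continuous_const)
  exact (continuous_const.sub continuous_id).div_const _

/-- a closed condition holds up to the ends of the interval -/
theorem clos {lo hi y₀ x : ℝ} (h1 : lo < y₀) (h2 : y₀ < hi) {F : Set ℝ} (hF : IsClosed F)
    (h : ∀ y, lo < y → y < hi → y ∈ F) (h3 : lo ≤ x) (h4 : x ≤ hi) : x ∈ F := by
  have h5 : closure (Set.Ioo lo hi) ⊆ F := hF.closure_subset_iff.2 fun y hy => h y hy.1 hy.2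
  apply h5
  rw [closure_Ioo (h1.trans h2).ne]
  exact ⟨h3, h4⟩

theorem run_inI {t y : ℝ} {w : List (Side n)} {l : Side n} (h : S.Run t (w ++ [l]) y) :
    S.InI t (S.gl l) (S.g t (w ++ [l]) y) := by
  rw [Surf.run_append, Surf.run_single] at h
  rw [Surf.g_append, Surf.g_single, Surf.inI_gl_iff]
  exact h.2.2

theorem dev_nil (c : Side n) : S.dev [] c = S.P c := by
  simp [Surf.dev, Surf.A, Surf.B]

theorem abs_xi_le {K t : ℝ} (ht : |t| ≤ K) (z : ℂ) : |xi t z| ≤ ‖z‖ * (1 + K) := by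
  unfold xi
  have h1 := Complex.abs_re_le_norm z
  have h2 := Complex.abs_im_le_norm z
  have h3 : |z.re - t * z.im| ≤ |z.re| + |t| * |z.im| := by
    have := abs_sub z.re (t * z.im)
    rwa [abs_mul] at this
  have h4 : |t| * |z.im| ≤ K * ‖z‖ := by
    apply mul_le_mul ht h2 (abs_nonneg _)
    exact (abs_nonneg t).trans ht
  calc |z.re - t * z.im| ≤ |z.re| + |t| * |z.im| := h3
    _ ≤ ‖z‖ + K * ‖z‖ := add_le_add h1 h4
    _ = _ := by ring

theorem norm_P_le (c : Side n) : ‖S.P c‖ ≤ ∑ c : Side n, ‖S.P c‖ :=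
  Finset.single_le_sum (f := fun c : Side n => ‖S.P c‖) (fun _ _ => norm_nonneg _)
    (Finset.mem_univ c)

theorem pf_X4 (h1 : T_LH) (h2 : T_CR) (_h3 : T_PT) (h4 : T_DV) : T_X4 := by
  intro n S K
  have hD0 : (0 : ℝ) ≤ ∑ c : Side n, ‖S.P c‖ := Finset.sum_nonneg fun _ _ => norm_nonneg _
  have hK1 : (0 : ℝ) ≤ 1 + |K| := by positivity
  have hD1 : 0 ≤ (∑ c : Side n, ‖S.P c‖) * (1 + |K|) := mul_nonneg hD0 hK1
  refine ⟨2 * ((∑ c : Side n, ‖S.P c‖) * (1 + |K|)) + 1, by linarith, ?_⟩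
  intro w l α c hc hα
  have hA : 0 < S.A (w ++ [l]) := S.A_pos _
  have hα0 : 0 < α := hA.trans_le hα
  have hne : w ++ [l] ≠ [] := by simp
  -- the main estimate
  have key : ∀ t : ℝ, |t| ≤ K → (∃ y, S.Run t (w ++ [l]) y) →
      (∀ y, S.Run t (w ++ [l]) y →
        c ≤ (S.pt t (S.gl l) (S.g t (w ++ [l]) y)).im - (S.B (w ++ [l])).im) →
      (∃ x, S.lo t (w ++ [l]) ≤ x ∧ x ≤ S.hi t (w ++ [l]) ∧
        S.g t (w ++ [l]) x = xi t (S.O (S.gl l))) →
      c ≤ (S.O (S.gl l) - S.B (w ++ [l])).im ∧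
      |xi t (S.O (S.gl l) - S.B (w ++ [l]))| ≤ α * ((∑ c : Side n, ‖S.P c‖) * (1 + |K|)) := by
    rintro t ht ⟨y₀, hy₀⟩ hall ⟨x, hx1, hx2, hx3⟩
    have hL := h1 n S t (w ++ [l]) hne
    obtain ⟨hchn, hlo, hhi⟩ := (hL y₀).1 hy₀
    have hrun : ∀ y, S.lo t (w ++ [l]) < y → y < S.hi t (w ++ [l]) → S.Run t (w ++ [l]) y :=
      fun y a b => (hL y).2 ⟨hchn, a, b⟩
    have hcx : c ≤ (S.pt t (S.gl l) (S.g t (w ++ [l]) x)).im - (S.B (w ++ [l])).im := by
      refine clos hlo hhi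
        (F := {y | c ≤ (S.pt t (S.gl l) (S.g t (w ++ [l]) y)).im - (S.B (w ++ [l])).im})
        ?_ (fun y a b => hall y (hrun y a b)) hx1 hx2
      exact isClosed_le continuous_const
        (((cont_pt S t (S.gl l)).comp (cont_g S t (w ++ [l]))).sub continuous_const)
    have hPx : xi t (S.P (S.gl l)) ≤ S.g t (w ++ [l]) x := by
      refine clos hlo hhi (F := {y | xi t (S.P (S.gl l)) ≤ S.g t (w ++ [l]) y})
        ?_ (fun y a b => (run_inI S (hrun y a b)).1.le) hx1 hx2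
      exact isClosed_le continuous_const (cont_g S t (w ++ [l]))
    have hQx : S.g t (w ++ [l]) x ≤ xi t (S.Q (S.gl l)) := by
      refine clos hlo hhi (F := {y | S.g t (w ++ [l]) y ≤ xi t (S.Q (S.gl l))})
        ?_ (fun y a b => (run_inI S (hrun y a b)).2.le) hx1 hx2
      exact isClosed_le (cont_g S t (w ++ [l])) continuous_const
    have hPQ : xi t (S.P (S.gl l)) < xi t (S.Q (S.gl l)) :=
      (run_inI S hy₀).1.trans (run_inI S hy₀).2
    have hcr := (h2 n S t (S.g t (w ++ [l]) x)).2.2 (S.gl l) hPQ hPx hQx hx3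
    refine ⟨?_, ?_⟩
    · rw [Complex.sub_im]
      linarith
    · have e1 : xi t (S.O (S.gl l) - S.B (w ++ [l])) = S.A (w ++ [l]) * x := by
        rw [xi_sub, ← hx3, Surf.g]
        ring
      rw [e1, abs_mul, abs_of_pos hA]
      have hxb : |x| ≤ (∑ c : Side n, ‖S.P c‖) * (1 + |K|) := by
        obtain ⟨r, w', hw'⟩ := List.exists_cons_of_ne_nil hne
        obtain ⟨a1, a2⟩ := (h4 n S t (w ++ [l]) hne).2.2 [] r w' hw'
        rw [dev_nil] at a1 a2
        have b1 := abs_xi_le (ht.trans (le_abs_self K)) (S.P (nx r))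
        have b2 := abs_xi_le (ht.trans (le_abs_self K)) (S.P r)
        have c1 := mul_le_mul_of_nonneg_right (norm_P_le S (nx r)) hK1
        have c2 := mul_le_mul_of_nonneg_right (norm_P_le S r) hK1
        rw [abs_le] at b1 b2 ⊢
        constructor
        · linarith [b1.1]
        · linarith [b2.2]
      exact mul_le_mul hα hxb (abs_nonneg x) hα0.le
  set V : ℂ := S.O (S.gl l) - S.B (w ++ [l]) with hV
  by_cases hVc : c ≤ V.im
  · have hV0 : 0 < V.im := hc.trans_le hVc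
    refine le_trans (measure_mono (t := Set.Icc
      (V.re / V.im - α * ((∑ c : Side n, ‖S.P c‖) * (1 + |K|)) / V.im)
      (V.re / V.im + α * ((∑ c : Side n, ‖S.P c‖) * (1 + |K|)) / V.im)) ?_) ?_
    · rintro t ⟨k1, k2, k3, k4⟩
      have k5 := (key t k1 k2 k3 k4).2
      rw [xi, abs_le] at k5
      constructor
      · rw [← sub_div, div_le_iff₀ hV0]
        linarith [k5.2]
      · rw [← add_div, le_div_iff₀ hV0]
        linarith [k5.1]
    · rw [Real.volume_Icc]
      apply ENNReal.ofReal_le_ofReal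
      have e1 : V.re / V.im + α * ((∑ c : Side n, ‖S.P c‖) * (1 + |K|)) / V.im -
          (V.re / V.im - α * ((∑ c : Side n, ‖S.P c‖) * (1 + |K|)) / V.im) =
          (2 * ((∑ c : Side n, ‖S.P c‖) * (1 + |K|)) * α) / V.im := by ring
      rw [e1]
      apply div_le_div₀
      · exact mul_nonneg (by linarith) hα0.le
      · exact mul_le_mul_of_nonneg_right (by linarith) hα0.le
      · exact hc
      · exact hVc
  · refine le_trans (le_of_eq ?_) (bot_le)
    rw [show {t : ℝ | |t| ≤ K ∧ (∃ y, S.Run t (w ++ [l]) y) ∧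
      (∀ y, S.Run t (w ++ [l]) y →
        c ≤ (S.pt t (S.gl l) (S.g t (w ++ [l]) y)).im - (S.B (w ++ [l])).im) ∧
      ∃ x, S.lo t (w ++ [l]) ≤ x ∧ x ≤ S.hi t (w ++ [l]) ∧
        S.g t (w ++ [l]) x = xi t (S.O (S.gl l))} = ∅ from ?_]
    · exact measure_empty
    · rw [Set.eq_empty_iff_forall_notMem]
      rintro t ⟨k1, k2, k3, k4⟩
      exact hVc (key t k1 k2 k3 k4).1

end Pool.Agent.H47.DU
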